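import Pool.Agent.Work.MP_db9399_owc.Blocks
import Pool.Agent.Work.MP_db9399_ow_helper72.BATCH

/-!
# MP_db9399, OWN2: one batch with fine bounds (block BATCH2, helper72)
-/

set_option autoImplicit false

namespace Pool.Agent.Work.MP_db9399_owc.helper72

open Finset Classical
open Pool.Agent.Work.MP_db9399_all (nb mis pr DepOnI)
open Pool.Agent.Work.MP_db9399_en (ex)
open Pool.Agent.Work.MP_db9399_ow
open Pool.Agent.Work.MP_db9399_ow.helper72

universe u

theorem num_final2 {X w Λ : ℝ} (C : ℕ) (hX : 10 ^ 6 ≤ X) (hw : w = Real.exp (X ^ C))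
    (hΛ : Λ = X ^ (C + 3)) {d Xk : ℝ} (hd : d ≤ Real.exp X) (hd0 : 0 ≤ d) (hXk : Xk ≤ d)
    (hXk0 : 0 ≤ Xk) :
    16 * ((2 * d + 4 + w) * Real.exp (-Λ)) *
      (2 * d * ((w * (1 + d ^ 5) + d * Xk + 2 * d) * (1 + 2 * d)) + 1) *
      ((1 + 2 * d) * (4 * w + w * (1 + d ^ 5) + 2 * d) + 1) ≤ 1 := by
  have hX0 : 0 < X := by linarith
  have hXC : 1 ≤ X ^ C := one_le_pow₀ (by linarith)
  have hw1 : 1 ≤ w := by rw [hw]; exact Real.one_le_exp (by linarith)
  set Y := Real.exp X with hY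
  have hY1 : 10 ^ 6 ≤ Y := by
    have := Real.add_one_le_exp X
    linarith
  have hY0 : 0 < Y := by linarith
  have hw0 : 0 < w := by linarith
  have he0 : 0 < Real.exp (-Λ) := Real.exp_pos _
  have hd5 : d ^ 5 ≤ Y ^ 5 := pow_le_pow_left₀ hd0 hd 5
  have hY15 : 1 ≤ Y ^ 5 := one_le_pow₀ (by linarith)
  have hY14 : 1 ≤ Y ^ 4 := one_le_pow₀ (by linarith)
  have hYY5 : Y ≤ Y ^ 5 := by
    calc Y = Y * 1 := (mul_one _).symm
      _ ≤ Y * Y ^ 4 := mul_le_mul_of_nonneg_left hY14 hY0.le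
      _ = Y ^ 5 := by ring
  have hYY2 : Y * Y ≤ Y ^ 5 := by
    have h : 1 ≤ Y ^ 3 := one_le_pow₀ (by linarith)
    calc Y * Y = Y * Y * 1 := (mul_one _).symm
      _ ≤ Y * Y * Y ^ 3 := mul_le_mul_of_nonneg_left h (by positivity)
      _ = Y ^ 5 := by ring
  have hwY : w ≤ w * Y := le_mul_of_one_le_right hw0.le (by linarith)
  have hYw : Y ≤ w * Y := le_mul_of_one_le_left hY0.le hw1
  have hwY5 : w ≤ w * Y ^ 5 := le_mul_of_one_le_right hw0.le hY15
  have hY5w : Y ^ 5 ≤ w * Y ^ 5 := le_mul_of_one_le_left (by positivity) hw1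
  have hwd5 : w * d ^ 5 ≤ w * Y ^ 5 := mul_le_mul_of_nonneg_left hd5 hw0.le
  have hd50 : 0 ≤ d ^ 5 := by positivity
  have hdXk : d * Xk ≤ Y * Y := mul_le_mul hd (hXk.trans hd) hXk0 hY0.le
  have hdXk0 : 0 ≤ d * Xk := by positivity
  -- the three factors
  have h1 : 2 * d + 4 + w ≤ 7 * (w * Y) := by nlinarith
  have h2 : w * (1 + d ^ 5) + d * Xk + 2 * d ≤ 5 * (w * Y ^ 5) := by
    have e1 : w * (1 + d ^ 5) = w + w * d ^ 5 := by ring
    linarith
  have h3 : (w * (1 + d ^ 5) + d * Xk + 2 * d) * (1 + 2 * d) ≤ 5 * (w * Y ^ 5) * (3 * Y) :=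
    mul_le_mul h2 (by linarith) (by positivity) (by positivity)
  have h4 : 2 * d * ((w * (1 + d ^ 5) + d * Xk + 2 * d) * (1 + 2 * d)) ≤
      2 * Y * (5 * (w * Y ^ 5) * (3 * Y)) :=
    mul_le_mul (by linarith) h3 (by positivity) (by positivity)
  have hbig : 1 ≤ w * Y ^ 7 := by
    have h : 1 ≤ Y ^ 7 := one_le_pow₀ (by linarith)
    calc (1 : ℝ) ≤ 1 * 1 := by norm_num
      _ ≤ w * Y ^ 7 := mul_le_mul hw1 h (by norm_num) hw0.le
  have h5 : 2 * d * ((w * (1 + d ^ 5) + d * Xk + 2 * d) * (1 + 2 * d)) + 1 ≤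
      31 * (w * Y ^ 7) := by
    have : 2 * Y * (5 * (w * Y ^ 5) * (3 * Y)) = 30 * (w * Y ^ 7) := by ring
    linarith
  have h6 : 4 * w + w * (1 + d ^ 5) + 2 * d ≤ 8 * (w * Y ^ 5) := by
    have e1 : w * (1 + d ^ 5) = w + w * d ^ 5 := by ring
    linarith
  have h7 : (1 + 2 * d) * (4 * w + w * (1 + d ^ 5) + 2 * d) ≤ 3 * Y * (8 * (w * Y ^ 5)) :=
    mul_le_mul (by linarith) h6 (by positivity) (by positivity)
  have hbig2 : 1 ≤ w * Y ^ 6 := by
    have h : 1 ≤ Y ^ 6 := one_le_pow₀ (by linarith)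
    calc (1 : ℝ) ≤ 1 * 1 := by norm_num
      _ ≤ w * Y ^ 6 := mul_le_mul hw1 h (by norm_num) hw0.le
  have h8 : (1 + 2 * d) * (4 * w + w * (1 + d ^ 5) + 2 * d) + 1 ≤ 25 * (w * Y ^ 6) := by
    have : 3 * Y * (8 * (w * Y ^ 5)) = 24 * (w * Y ^ 6) := by ring
    linarith
  have h9 : 16 * ((2 * d + 4 + w) * Real.exp (-Λ)) ≤ 16 * (7 * (w * Y) * Real.exp (-Λ)) := by
    have := mul_le_mul_of_nonneg_right h1 he0.le
    linarith
  have h10 : 16 * ((2 * d + 4 + w) * Real.exp (-Λ)) *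
      (2 * d * ((w * (1 + d ^ 5) + d * Xk + 2 * d) * (1 + 2 * d)) + 1) ≤
      16 * (7 * (w * Y) * Real.exp (-Λ)) * (31 * (w * Y ^ 7)) :=
    mul_le_mul h9 h5 (by positivity) (by positivity)
  have h11 : 16 * ((2 * d + 4 + w) * Real.exp (-Λ)) *
      (2 * d * ((w * (1 + d ^ 5) + d * Xk + 2 * d) * (1 + 2 * d)) + 1) *
      ((1 + 2 * d) * (4 * w + w * (1 + d ^ 5) + 2 * d) + 1) ≤
      16 * (7 * (w * Y) * Real.exp (-Λ)) * (31 * (w * Y ^ 7)) * (25 * (w * Y ^ 6)) :=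
    mul_le_mul h10 h8 (by positivity) (by positivity)
  refine h11.trans ?_
  have h12 : 16 * (7 * (w * Y) * Real.exp (-Λ)) * (31 * (w * Y ^ 7)) * (25 * (w * Y ^ 6)) =
      86800 * (w ^ 3 * Y ^ 14 * Real.exp (-Λ)) := by ring
  rw [h12]
  have h13 : 86800 * (w ^ 3 * Y ^ 14 * Real.exp (-Λ)) ≤ w ^ 3 * Y ^ 15 * Real.exp (-Λ) := by
    have h14 : w ^ 3 * Y ^ 15 * Real.exp (-Λ) = Y * (w ^ 3 * Y ^ 14 * Real.exp (-Λ)) := by ring
    rw [h14]
    exact mul_le_mul_of_nonneg_right (by linarith) (by positivity)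
  refine h13.trans ?_
  rw [hw, hY, ← Real.exp_nat_mul, ← Real.exp_nat_mul, ← Real.exp_add, ← Real.exp_add]
  apply Real.exp_le_one_iff.2
  rw [hΛ, pow_add]
  push_cast
  have h15 : 1000 * X ≤ X ^ 3 := by nlinarith [sq_nonneg X, mul_pos hX0 hX0]
  nlinarith [mul_le_mul hXC h15 (by positivity) (by positivity)]

section events
variable {V Y : Type u} [Fintype V] {P M : ℕ} (G : SimpleGraph V) (U : Finset V) (T N1 t : ℕ)
  (B : Finset (Fin P)) (Z : Y → Finset V) (k : Y → ℝ)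

theorem ear_iff {S : Finset V} {ω ω' : Fin P × V → Fin M} (h : ∀ y ∈ Sc P G S, ω y = ω' y)
    {v : V} (hv : v ∈ S) (b : Fin P) : v ∈ ear U N1 t ω b ↔ v ∈ ear U N1 t ω' b := by
  unfold ear
  rw [mem_filter, mem_filter, agree_self h hv b]

theorem bad_iff {S S' : Finset V} (hS : S ⊆ S')
    (hZ : ∀ y, ∀ v ∈ S, v ∈ Z y → Z y ⊆ S')
    {ω ω' : Fin P × V → Fin M} (h : ∀ y ∈ Sc P G S', ω y = ω' y)
    {v : V} (hv : v ∈ S) (b : Fin P) :
    v ∈ bad G U T N1 t Z k ω b ↔ v ∈ bad G U T N1 t Z k ω' b := by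
  unfold bad
  rw [mem_filter, mem_filter, loc_iff U T h (hS hv) b, ear_iff G U N1 t h (hS hv) b]
  refine and_congr_right fun _ => or_congr_right (exists_congr fun y => and_congr_right fun hy => ?_)
  have h1 : ear U N1 t ω b ∩ Z y = ear U N1 t ω' b ∩ Z y := by
    ext u
    rw [mem_inter, mem_inter]
    constructor
    · rintro ⟨h2, h3⟩
      exact ⟨(ear_iff G U N1 t h (hZ y v hv hy h3) b).1 h2, h3⟩
    · rintro ⟨h2, h3⟩
      exact ⟨(ear_iff G U N1 t h (hZ y v hv hy h3) b).2 h2, h3⟩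
  rw [h1]

theorem dep_ovl {S S' : Finset V} (hS : S ⊆ S') (hZ : ∀ y, ∀ v ∈ S, v ∈ Z y → Z y ⊆ S')
    {F : Fin P → V → ℝ} {ε : ℝ} (hF : ∀ b v, v ∉ S → F b v = 0) :
    DepOnI (Sc P G S') (fun ω : Fin P × V → Fin M => ε ≤
      ∑ b ∈ B, ∑ v ∈ bad G U T N1 t Z k ω b, F b v) := by
  intro ω ω' h
  have h1 : ∀ b, ∑ v ∈ bad G U T N1 t Z k ω b, F b v = ∑ v ∈ bad G U T N1 t Z k ω' b, F b v :=
    fun b => sum_agree (hF b) fun v hv => bad_iff G U T N1 t Z k hS hZ h hv b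
  simp only [h1]

theorem bad_sub (ω : Fin P × V → Fin M) (b : Fin P) :
    bad G U T N1 t Z k ω b ⊆ loc G U T ω b := by
  intro v hv
  unfold bad at hv
  exact (mem_filter.1 hv).1

theorem not_bad (ω : Fin P × V → Fin M) (b : Fin P) {u : V} (h1 : u ∈ loc G U T ω b)
    (h2 : u ∉ bad G U T N1 t Z k ω b) : u ∈ ear U N1 t ω b ∧
      ∀ y, u ∈ Z y → ((ear U N1 t ω b ∩ Z y).card : ℝ) ≤ k y := by
  unfold bad at h2
  rw [mem_filter] at h2
  push Not at h2
  exact h2 h1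

end events

theorem stmt_BATCH2 (hSYM : Stmt_SYM.{u}) (hOFFX : Stmt_OFFX.{u}) (hDEV : Stmt_DEV.{u})
    (hSGN : Stmt_SGN.{u}) (hMLT : Stmt_MLT.{u}) (hTWO : Stmt_TWO.{u}) (hPNB : Stmt_PNB)
    (hOVL : Stmt_OVL.{u}) : Stmt_BATCH2.{u} := by
  intro A B C K F m hA hm
  refine ⟨2 * (A + B + C + K + F + m) + 100, 10 ^ 6, ?_⟩
  intro V _ G d x P D t U Bt a τ J R Y _ _ _ _ Sτ Ft SJ g e Q Z k hx0 hlog hN hP hD2 hDB hB1 hB2
    ha1 ha2 hnb hD hU hT hS hR hCap ht1 ht2 hk1 hk2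
  -- real numbers
  set X : ℝ := (x : ℝ) with hXdef
  have hX6 : (10 : ℝ) ^ 6 ≤ X := by
    rw [hXdef]; exact_mod_cast hx0
  have hX1 : (1 : ℝ) ≤ X := by linarith
  have hx1 : 1 ≤ x := le_trans (by norm_num) hx0
  have hpow : ∀ k, k ≤ 2 * (A + B + C + K + F + m) + 100 → X ^ k ≤ (d : ℝ) := by
    intro k hk
    refine (pow_le_pow_right₀ hX1 hk).trans ?_
    rw [hXdef]; exact_mod_cast hN
  have hd1 : (1 : ℝ) ≤ d := by simpa using hpow 0 (by omega)
  have hd0 : (0 : ℝ) < d := by linarith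
  have hde : (d : ℝ) ≤ Real.exp X := by
    calc (d : ℝ) = Real.exp (Real.log d) := (Real.exp_log hd0).symm
      _ ≤ _ := Real.exp_le_exp.2 hlog
  have hDB' : (d : ℝ) ≤ (D : ℝ) * X ^ B := by rw [hXdef]; exact_mod_cast hDB
  have hB1' : (Bt.card : ℝ) * X ^ m ≤ d := by rw [hXdef]; exact_mod_cast hB1
  have hB2' : (d : ℝ) ≤ 2 * ((Bt.card : ℝ) * X ^ m) := by rw [hXdef]; exact_mod_cast hB2
  have hD2' : (D : ℝ) ≤ 2 * d := by exact_mod_cast hD2
  have hP' : (P : ℝ) ≤ 2 * d := by exact_mod_cast hP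
  have hb0 : (0 : ℝ) < Bt.card := by
    by_contra hneg
    push Not at hneg
    have h1 : (Bt.card : ℝ) = 0 := le_antisymm hneg (Nat.cast_nonneg _)
    rw [h1] at hB2'
    linarith
  have hN1D' : X ^ A < D := n_N1D A B (by linarith) (hpow _ (by omega)) hDB'
  have hN1D : x ^ A < D := by
    rw [hXdef] at hN1D'; exact_mod_cast hN1D'
  have hN11 : 1 ≤ x ^ A := Nat.one_le_pow _ _ hx1
  have hXA1 : 1 ≤ X ^ A := one_le_pow₀ hX1
  have hD0 : (0 : ℝ) < D := by linarith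
  have hD4 : 4 ≤ D := by
    have h1 : X ^ 1 ≤ (D : ℝ) := by
      have h2 := n_N1D (d := (d : ℝ)) 1 B (by linarith) (hpow _ (by omega)) hDB'
      exact h2.le
    rw [pow_one] at h1
    have h3 : (4 : ℝ) ≤ D := by linarith
    exact_mod_cast h3
  have hbD : (Bt.card : ℝ) * X ^ (A + K + 1) ≤ D := n_bD A B K m hX1 hm hB1' hDB' hb0.le
  have hXm1 : 1 ≤ X ^ m := one_le_pow₀ hX1
  have hbd : (Bt.card : ℝ) ≤ d :=
    (le_mul_of_one_le_right hb0.le hXm1).trans hB1'
  have hND : ((x ^ A : ℕ) : ℝ) = X ^ A := by rw [hXdef]; push_cast; rfl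
  set Λ : ℝ := X ^ (C + 3) with hΛ
  have hΛ0 : 0 ≤ Λ := by positivity
  set w : ℝ := Real.exp (X ^ C) with hw
  have hw1 : 1 ≤ w := Real.one_le_exp (by positivity)
  set E : ℕ := A + B + C + K + 10 with hE
  set ξ : ℝ := X ^ E / d with hξ
  have hK0 : (0 : ℝ) < X ^ K / d := by positivity
  have hXKd : X ^ K ≤ (d : ℝ) := hpow K (by omega)
  have hXF0 : (0 : ℝ) < X ^ F := by positivity
  have hε0 : (0 : ℝ) < 1 / X ^ F := by positivity
  have hε1 : (1 : ℝ) / X ^ F ≤ 1 := by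
    rw [div_le_one hXF0]; exact one_le_pow₀ hX1
  have hξ1 : 2 * ((x ^ A : ℕ) : ℝ) / D ≤ ξ := by
    rw [hND]; exact n_xi1 A B E (by linarith) hd0 hD0 hDB' (by omega)
  have hξ2 : 8 * (X ^ K / d) * Λ ≤ ξ := n_xi2 K C E (by linarith) hd0 (by omega)
  have hξ3 : 64 * ξ * Λ ≤ (1 / X ^ F) ^ 2 := n_xi3 E C F (by linarith) hd0 (hpow _ (by omega))
  have hexp : 2 * (Bt.card : ℝ) * Real.exp (-Λ) ≤ 1 / X ^ F :=
    n_exp C F hX6 hd0.le hde (hpow F (by omega)) hbd
  have hdeg : ∀ v, (nb G v).card ≤ 2 * d := hnb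
  have hΛe : 0 < Real.exp (-Λ) := Real.exp_pos _
  set p : ℝ := (2 * d + 4 + w) * Real.exp (-Λ) with hp
  have hp0 : 0 ≤ p := by positivity
  have hple : ∀ r : ℝ, r ≤ 2 * d + 4 + w → r * Real.exp (-Λ) ≤ p := fun r hr =>
    mul_le_mul_of_nonneg_right hr hΛe.le
  -- the sample space
  set M : ℕ := D * x ^ A with hM
  have hM0 : 0 < M := Nat.mul_pos (by omega) (by omega)
  set T : ℕ := (x ^ A) ^ 2 with hTdef
  let PR : V → ℝ := Pv G U M T
  let E1 : τ → (Fin P × V → Fin M) → Prop := fun j ω =>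
    1 / X ^ F ≤ |∑ b ∈ Bt, (∑ v ∈ loc G U T ω b, Ft j b v - ∑ v ∈ U, PR v * Ft j b v)|
  let E2 : τ → (Fin P × V → Fin M) → Prop := fun j ω =>
    2 * (Bt.card * ((x ^ A : ℕ) : ℝ) / D) ^ 2 ≤
      ∑ b ∈ Bt, ∑ v ∈ (off U T ω b).filter (fun v => 2 ≤ num U T Bt ω v), Ft j b v
  let e' : J → ℝ := fun j => min (e j / d) (X ^ K / d)
  let E3 : J → (Fin P × V → Fin M) → Prop := fun j ω =>
    Bt.card * Real.sqrt (2100 * e' j / D) + 1 / X ^ F ≤
      ∑ b ∈ Bt, |∑ v ∈ loc G U T ω b, g j b v - ∑ v ∈ U, PR v * g j b v|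
  let fq : R → Fin P × V → ℝ := fun q y => if y ∈ Q q ∧ y.1 ∈ Bt then 1 else 0
  let E4 : R → (Fin P × V → Fin M) → Prop := fun q ω => X ^ (A + B + C + K + 5) ≤
    ∑ y ∈ univ.filter (fun y : Fin P × V => y.2 ∈ off U T ω y.1), fq q y
  let E5 : V → (Fin P × V → Fin M) → Prop := fun v ω =>
    a * (D : ℝ) ^ 2 ≤ ((mis G (nb G v ∩ U)).card : ℝ) ∧
      ((Bt.filter (fun b => 2 ≤ (nb G v ∩ loc G U T ω b).card)).card : ℝ) < a / 256 * Bt.card
  let E6 : τ → (Fin P × V → Fin M) → Prop := fun j ω =>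
    1 / X ^ F ≤ ∑ b ∈ Bt, ∑ v ∈ bad G U T (x ^ A) t Z k ω b, Ft j b v
  let S4 : R → Finset V := fun q => (Q q).image Prod.snd
  let S6 : τ → Finset V := fun j =>
    Sτ j ∪ (Sτ j).biUnion fun u => (univ.filter fun y => u ∈ Z y).biUnion Z
  let EE : (τ ⊕ (τ ⊕ τ)) ⊕ (J ⊕ (R ⊕ V)) → (Fin P × V → Fin M) → Prop :=
    Sum.elim (Sum.elim E6 (Sum.elim E1 E2)) (Sum.elim E3 (Sum.elim E4 E5))
  let SS : (τ ⊕ (τ ⊕ τ)) ⊕ (J ⊕ (R ⊕ V)) → Finset V :=
    Sum.elim (Sum.elim S6 (Sum.elim Sτ Sτ)) (Sum.elim SJ (Sum.elim S4 (nb G)))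
  -- probabilities
  have hb2d : (Bt.card : ℝ) + 2 ≤ 2 * d + 4 + w := by linarith
  have p1 : ∀ j, pr (E1 j) ≤ p := by
    intro j
    refine (hDEV P D (x ^ A) G U Bt (Ft j) (X ^ K / d) ξ Λ (1 / X ^ F) hN11 hN1D hK0 hΛ0 hε0 hε1
      (hT.nn j) (hT.le j) (hT.sum j) ?_ hξ1 hξ2 hξ3 hexp).trans (hple _ hb2d)
    have h1 : ∀ b ∈ Bt, ∑ v ∈ U, Pv G U (D * x ^ A) ((x ^ A) ^ 2) v * Ft j b v ≤ 4 / D := by
      intro b _
      calc ∑ v ∈ U, Pv G U (D * x ^ A) ((x ^ A) ^ 2) v * Ft j b v ≤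
          ∑ v ∈ U, 4 / (D : ℝ) * Ft j b v := sum_le_sum fun v hv =>
            mul_le_mul_of_nonneg_right (Pv_le hPNB G U hN11 hN1D (hU v hv)).1 (hT.nn j b v)
        _ = 4 / (D : ℝ) * ∑ v ∈ U, Ft j b v := by rw [mul_sum]
        _ ≤ 4 / (D : ℝ) * 1 := by
            refine mul_le_mul_of_nonneg_left ?_ (by positivity)
            exact (sum_le_sum_of_subset_of_nonneg (subset_univ U) fun v _ _ => hT.nn j b v).trans
              (hT.sum j b)
        _ = 4 / D := mul_one _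
    refine (sum_le_card_nsmul _ _ _ h1).trans ?_
    rw [nsmul_eq_mul, ← mul_div_assoc, div_le_one hD0]
    have h2 : 4 ≤ X ^ (A + K + 1) := by
      have h3 := n_pow (X := X) (c := 4) (k := 0) (l := A + K + 1) hX1 (by linarith) (by omega)
      simpa using h3
    calc (Bt.card : ℝ) * 4 ≤ Bt.card * X ^ (A + K + 1) := mul_le_mul_of_nonneg_left h2 hb0.le
      _ ≤ D := hbD
  have hlogd0 : 0 < Real.log d := Real.log_pos (by
    have h1 : X ^ 1 ≤ (d : ℝ) := hpow 1 (by omega)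
    rw [pow_one] at h1
    linarith)
  have ht0 : 1 ≤ t := by
    by_contra h
    have h1 : t = 0 := by omega
    rw [h1] at ht1
    push_cast at ht1
    linarith
  have htN : x ^ A * t ≤ (x ^ A) ^ 2 := by
    rw [sq]
    refine Nat.mul_le_mul_left _ ?_
    have h1 : (t : ℝ) ≤ X ^ A := by
      have h2 : X ^ 2 ≤ X ^ A := pow_le_pow_right₀ hX1 hA
      have h3 : 200 * X ≤ X ^ 2 := by nlinarith
      linarith
    rw [hXdef] at h1
    exact_mod_cast h1
  have p6 : ∀ j, pr (E6 j) ≤ p := by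
    intro j
    refine (hOVL P D (x ^ A) t G U Z k Bt (Ft j) (X ^ K / d) ξ Λ (12 * Real.log d) (1 / X ^ F)
      hN11 hN1D ht0 htN hK0 hΛ0 (by linarith) hε0 hε1 (hT.nn j) (hT.le j) (hT.sum j) hU hk1
      (fun y => le_trans (by linarith) (hk2 y)) hξ1 hξ2 ?_ ?_).trans (hple _ hb2d)
    · refine hξ3.trans ?_
      rw [sq]
      exact mul_le_of_le_one_left hε0.le hε1
    · intro v
      have e1 : Real.exp (-((t : ℝ) / 4)) ≤ 1 / (d : ℝ) ^ 10 := by
        rw [Real.exp_neg, ← one_div]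
        refine one_div_le_one_div_of_le (by positivity) ?_
        rw [← Real.exp_log (show (0 : ℝ) < (d : ℝ) ^ 10 by positivity)]
        refine Real.exp_le_exp.2 ?_
        rw [Real.log_pow]
        push_cast
        linarith
      have e2 : Real.exp (-(12 * Real.log d)) = 1 / (d : ℝ) ^ 12 := by
        rw [Real.exp_neg, ← one_div, show 12 * Real.log d = ((12 : ℕ) : ℝ) * Real.log d by
          push_cast; ring, Real.exp_nat_mul, Real.exp_log hd0]
      have e3 : ((univ.filter (fun y => v ∈ Z y)).card : ℝ) ≤ (d : ℝ) ^ 3 := by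
        exact_mod_cast hCap.mul v
      rw [e2]
      have hXFd : X ^ F ≤ (d : ℝ) := hpow F (by omega)
      have hd16 : (16 : ℝ) ≤ d := by
        have h1 : X ^ 1 ≤ (d : ℝ) := hpow 1 (by omega)
        rw [pow_one] at h1
        linarith
      have e4 : ((univ.filter (fun y => v ∈ Z y)).card : ℝ) * (1 / (d : ℝ) ^ 12) ≤
          1 / (d : ℝ) ^ 9 := by
        calc ((univ.filter (fun y => v ∈ Z y)).card : ℝ) * (1 / (d : ℝ) ^ 12) ≤
            (d : ℝ) ^ 3 * (1 / (d : ℝ) ^ 12) := mul_le_mul_of_nonneg_right e3 (by positivity)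
          _ = 1 / (d : ℝ) ^ 9 := by field_simp
      have e5 : 1 / (d : ℝ) ^ 10 ≤ 1 / (d : ℝ) ^ 9 :=
        one_div_le_one_div_of_le (by positivity) (pow_le_pow_right₀ hd1 (by norm_num))
      have e6 : (Bt.card : ℝ) * (Real.exp (-((t : ℝ) / 4)) +
          ((univ.filter (fun y => v ∈ Z y)).card : ℝ) * (1 / (d : ℝ) ^ 12)) ≤
          d * (2 / (d : ℝ) ^ 9) := by
        refine mul_le_mul hbd ?_ (by positivity) hd0.le
        have : 2 / (d : ℝ) ^ 9 = 1 / (d : ℝ) ^ 9 + 1 / (d : ℝ) ^ 9 := by ring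
        rw [this]
        exact add_le_add (e1.trans e5) e4
      refine e6.trans ?_
      have e7 : (d : ℝ) * (2 / (d : ℝ) ^ 9) = 2 / (d : ℝ) ^ 8 := by field_simp
      rw [e7, div_div, div_le_div_iff₀ (by positivity) (by positivity), one_mul]
      have e8 : (16 : ℝ) ≤ (d : ℝ) ^ 7 := by
        calc (16 : ℝ) ≤ d := hd16
          _ = (d : ℝ) ^ 1 := (pow_one _).symm
          _ ≤ (d : ℝ) ^ 7 := pow_le_pow_right₀ hd1 (by norm_num)
      calc 2 * (X ^ F * 8) = 16 * X ^ F := by ring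
        _ ≤ (d : ℝ) ^ 7 * d := mul_le_mul e8 hXFd hXF0.le (by positivity)
        _ = (d : ℝ) ^ 8 := by ring
  have p2 : ∀ j, pr (E2 j) ≤ p := by
    intro j
    have h1 : (Bt.card : ℝ) * ((x ^ A : ℕ) : ℝ) / D ≤ 1 := by
      rw [hND, div_le_one hD0]
      refine le_trans (mul_le_mul_of_nonneg_left ?_ hb0.le) hbD
      exact pow_le_pow_right₀ hX1 (by omega)
    have h2 : 8 * Λ ≤ X ^ (C + 4) := n_pow hX1 (by linarith) (by omega)
    have h3 : 1 ≤ X ^ (C + 4) := one_le_pow₀ hX1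
    have h4 : 1 ≤ Λ := one_le_pow₀ hX1
    refine (hMLT P D (x ^ A) U (Sτ j) Bt (Ft j) (X ^ K / d) Λ (X ^ (C + 4)) hN11 hN1D hK0 hΛ0 h3
      (hT.nn j) (hT.le j) (hT.sum j) (fun b v => hT.sup j b v) (by exact_mod_cast hb0)
      (by linarith) h2 ?_).trans ?_
    · rw [hND]
      exact n_mlt A K C m (by linarith) hd0 hD0 hb0 hD2' hB2' (hpow _ (by omega))
    · refine hple _ ?_
      have := hT.card j
      linarith
  have p3 : ∀ j, pr (E3 j) ≤ p := by
    intro j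
    have he0 : 0 ≤ e' j := le_min (hS.e0 j) hK0.le
    refine (hSGN P D (x ^ A) G U Bt (g j) (X ^ K / d) ξ Λ (1 / X ^ F) (e' j) hD4 hN11 hN1D hK0 hΛ0
      hε0 hε1 hD hU (hS.le j) (hS.sum j) ?_ he0
      (n_sqrt A K m (by linarith) hd0 hD0 hb0 hB1' hbD (min_le_right _ _)) hξ1 hξ2 hξ3).trans
      (hple _ (by linarith))
    intro b
    have h1 : ∑ v ∈ U, g j b v ^ 2 ≤ ∑ v, g j b v ^ 2 :=
      sum_le_sum_of_subset_of_nonneg (subset_univ U) fun v _ _ => sq_nonneg _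
    refine le_min (h1.trans (hS.sq j b)) (h1.trans ?_)
    calc ∑ v, g j b v ^ 2 ≤ ∑ v, X ^ K / d * |g j b v| := by
          refine sum_le_sum fun v _ => ?_
          rw [← sq_abs, sq]
          exact mul_le_mul_of_nonneg_right (hS.le j b v) (abs_nonneg _)
      _ = X ^ K / d * ∑ v, |g j b v| := by rw [mul_sum]
      _ ≤ X ^ K / d * 1 := mul_le_mul_of_nonneg_left (hS.sum j b) hK0.le
      _ = X ^ K / d := mul_one _
  have p4 : ∀ q, pr (E4 q) ≤ p := by
    intro q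
    have hs0 : (0 : ℝ) < d * X ^ K := by positivity
    have h1 := hOFFX P M T U (fq q) (((x ^ A : ℕ) : ℝ) / D) 1 (d * X ^ K)
      (X ^ (A + B + C + K + 5)) Λ hM0 ?_ (by rw [hND]; positivity) one_pos hs0 hΛ0 ?_ ?_ ?_ ?_ ?_
    · refine h1.trans ?_
      have := hple 1 (by linarith)
      linarith
    · rw [hTdef, hM]
      push_cast
      rw [show ((x : ℝ) ^ A / D) * (D * (x : ℝ) ^ A) = (x : ℝ) ^ A * (x : ℝ) ^ A by
        field_simp, sq]
    · intro y
      simp only [fq]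
      split_ifs <;> norm_num
    · intro y
      simp only [fq]
      split_ifs <;> norm_num
    · have h2 : ∑ y, fq q y = (((Q q).filter (fun y => y.1 ∈ Bt)).card : ℝ) := by
        simp only [fq]
        rw [← sum_filter, sum_const, nsmul_eq_mul, mul_one]
        congr 2
        ext y
        simp [mem_filter]
      rw [h2]
      refine le_trans ?_ (hR.card q)
      exact_mod_cast card_le_card (filter_subset _ _)
    · rw [hND]
      have h3 : 2 * (X ^ A / D) * (d * X ^ K) ≤ 2 * X ^ (A + B + K) := by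
        rw [show 2 * (X ^ A / (D : ℝ)) * (d * X ^ K) = 2 * (X ^ A * d * X ^ K) / D by ring,
          div_le_iff₀ hD0]
        calc 2 * (X ^ A * d * X ^ K) ≤ 2 * (X ^ A * (D * X ^ B) * X ^ K) := by
              refine mul_le_mul_of_nonneg_left ?_ (by norm_num)
              refine mul_le_mul_of_nonneg_right ?_ (by positivity)
              exact mul_le_mul_of_nonneg_left hDB' (by positivity)
          _ = 2 * X ^ (A + B + K) * D := by ring
      exact h3.trans (n_pow hX1 (by linarith) (by omega))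
    · rw [mul_one]
      exact n_pow hX1 (by linarith) (by omega)
  have p5 : ∀ v, pr (E5 v) ≤ p := by
    intro v
    by_cases hH : a * (D : ℝ) ^ 2 ≤ ((mis G (nb G v ∩ U)).card : ℝ)
    · have ha0 : 0 < a := lt_of_lt_of_le (by positivity) ha1
      have h1 := hTWO P D (x ^ A) G U Bt v a (by omega) hN11 hN1D ha0 ha2 hD hH
      refine (pr_mono fun ω hω => hω.2).trans (h1.trans ?_)
      have h2 : Λ ≤ a ^ 2 / 300000 * Bt.card :=
        n_two K C m hX6 hd0 hB2' ha1 (hpow _ (by omega))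
      refine (Real.exp_le_exp.2 (neg_le_neg h2)).trans ?_
      have := hple 1 (by linarith)
      linarith
    · rw [pr_false fun ω hω => hH hω.1]
      exact hp0
  -- scopes
  have hdep : ∀ k, DepOnI (Sc P G (SS k)) (EE k) := by
    rintro ((j | (j | j)) | (j | (q | v)))
    · refine dep_ovl G U T (x ^ A) t Bt Z k subset_union_left ?_
        (fun b v hv => hT.sup j b v hv)
      intro y v hv hvy u hu
      refine mem_union_right _ (mem_biUnion.2 ⟨v, hv, mem_biUnion.2 ⟨y, ?_, hu⟩⟩)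
      exact mem_filter.2 ⟨mem_univ _, hvy⟩
    · exact dep_dev G U T Bt (fun b v hv => hT.sup j b v hv)
    · exact dep_mlt G U T Bt (fun b v hv => hT.sup j b v hv)
    · exact dep_sgn G U T Bt (fun b v hv => hS.sup j b v hv)
    · refine dep_upp G U T ?_
      intro y hy
      simp only [fq]
      rw [if_neg]
      intro hQ
      exact hy (mem_image_of_mem Prod.snd hQ.1)
    · exact dep_two G U T Bt
  have hw5 : w ≤ w * (1 + (d : ℝ) ^ 5) := by
    refine le_mul_of_one_le_right (by linarith) ?_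
    have : (0 : ℝ) ≤ (d : ℝ) ^ 5 := by positivity
    linarith
  have hcard : ∀ k, ((SS k).card : ℝ) ≤ w * (1 + (d : ℝ) ^ 5) + d * X ^ K + 2 * d := by
    have hdX : 0 ≤ (d : ℝ) * X ^ K := by positivity
    rintro ((j | (j | j)) | (j | (q | v)))
    · have h1 := hT.card j
      have h2 : (S6 j).card ≤ (Sτ j).card + (Sτ j).card * (d ^ 3 * d ^ 2) := by
        refine (card_union_le _ _).trans (Nat.add_le_add_left ?_ _)
        refine card_biUnion_le.trans ?_
        refine (sum_le_card_nsmul _ _ (d ^ 3 * d ^ 2) fun u _ => ?_).trans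
          (by rw [smul_eq_mul])
        refine card_biUnion_le.trans ?_
        refine (sum_le_card_nsmul _ _ (d ^ 2) fun y _ => hCap.card y).trans ?_
        rw [smul_eq_mul]
        exact Nat.mul_le_mul_right _ (hCap.mul u)
      have h3 : ((S6 j).card : ℝ) ≤ (Sτ j).card + (Sτ j).card * ((d : ℝ) ^ 3 * (d : ℝ) ^ 2) := by
        exact_mod_cast h2
      have h4 : ((Sτ j).card : ℝ) + (Sτ j).card * ((d : ℝ) ^ 3 * (d : ℝ) ^ 2) =
          (Sτ j).card * (1 + (d : ℝ) ^ 5) := by ring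
      have h5 : ((Sτ j).card : ℝ) * (1 + (d : ℝ) ^ 5) ≤ w * (1 + (d : ℝ) ^ 5) :=
        mul_le_mul_of_nonneg_right h1 (by positivity)
      simp only [SS, Sum.elim_inl, Sum.elim_inr]
      linarith
    · have := hT.card j
      simp only [SS, Sum.elim_inl, Sum.elim_inr]
      linarith
    · have := hT.card j
      simp only [SS, Sum.elim_inl, Sum.elim_inr]
      linarith
    · have := hS.card j
      simp only [SS, Sum.elim_inl, Sum.elim_inr]
      linarith
    · have h1 := hR.card q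
      have h2 : ((S4 q).card : ℝ) ≤ ((Q q).card : ℝ) := by exact_mod_cast card_image_le
      simp only [SS, Sum.elim_inl, Sum.elim_inr]
      linarith
    · have h1 : ((nb G v).card : ℝ) ≤ 2 * d := by exact_mod_cast hnb v
      simp only [SS, Sum.elim_inl, Sum.elim_inr]
      linarith
  have hmul6 : ∀ v, ((univ.filter (fun j => v ∈ S6 j)).card : ℝ) ≤ w * (1 + (d : ℝ) ^ 5) := by
    intro v
    have h1 : univ.filter (fun j => v ∈ S6 j) ⊆ (univ.filter fun j => v ∈ Sτ j) ∪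
        (univ.filter fun y => v ∈ Z y).biUnion fun y => (Z y).biUnion fun u =>
          univ.filter fun j => u ∈ Sτ j := by
      intro j hj
      have h2 : v ∈ S6 j := (mem_filter.1 hj).2
      rcases mem_union.1 h2 with h3 | h3
      · exact mem_union_left _ (mem_filter.2 ⟨mem_univ _, h3⟩)
      · obtain ⟨u, hu, h4⟩ := mem_biUnion.1 h3
        obtain ⟨y, hy, h5⟩ := mem_biUnion.1 h4
        refine mem_union_right _ (mem_biUnion.2 ⟨y, mem_filter.2 ⟨mem_univ _, h5⟩,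
          mem_biUnion.2 ⟨u, (mem_filter.1 hy).2, mem_filter.2 ⟨mem_univ _, hu⟩⟩⟩)
    have h2 : ((univ.filter (fun j => v ∈ S6 j)).card : ℝ) ≤
        ((univ.filter fun j => v ∈ Sτ j).card : ℝ) +
        ∑ y ∈ univ.filter (fun y => v ∈ Z y), ∑ u ∈ Z y,
          ((univ.filter fun j => u ∈ Sτ j).card : ℝ) := by
      have h3 := (card_le_card h1).trans ((card_union_le _ _).trans (Nat.add_le_add_left
        (card_biUnion_le.trans (sum_le_sum fun y _ => card_biUnion_le)) _))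
      exact_mod_cast h3
    have h3 : ∑ y ∈ univ.filter (fun y => v ∈ Z y), ∑ u ∈ Z y,
        ((univ.filter fun j => u ∈ Sτ j).card : ℝ) ≤ (d : ℝ) ^ 3 * ((d : ℝ) ^ 2 * w) := by
      have h4 : ∀ y ∈ univ.filter (fun y => v ∈ Z y), ∑ u ∈ Z y,
          ((univ.filter fun j => u ∈ Sτ j).card : ℝ) ≤ (d : ℝ) ^ 2 * w := by
        intro y _
        refine (sum_le_card_nsmul _ _ w fun u _ => hT.mul u).trans ?_
        rw [nsmul_eq_mul]
        refine mul_le_mul_of_nonneg_right ?_ (by linarith)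
        exact_mod_cast hCap.card y
      refine (sum_le_card_nsmul _ _ _ h4).trans ?_
      rw [nsmul_eq_mul]
      refine mul_le_mul_of_nonneg_right ?_ (by positivity)
      exact_mod_cast hCap.mul v
    have h4 := hT.mul v
    have h5 : w * (1 + (d : ℝ) ^ 5) = w + (d : ℝ) ^ 3 * ((d : ℝ) ^ 2 * w) := by ring
    rw [h5]
    linarith
  have hmult : ∀ v, ((univ.filter (fun k => v ∈ SS k)).card : ℝ) ≤
      4 * w + w * (1 + (d : ℝ) ^ 5) + 2 * d := by
    intro v
    have h1 : ((univ.filter (fun k => v ∈ SS k)).card : ℝ) =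
        (((univ.filter (fun j => v ∈ S6 j)).card : ℝ) + (((univ.filter (fun j => v ∈ Sτ j)).card : ℝ)
          + (univ.filter (fun j => v ∈ Sτ j)).card)) +
          ((univ.filter (fun j => v ∈ SJ j)).card +
            ((univ.filter (fun q => v ∈ S4 q)).card + (univ.filter (fun w => v ∈ nb G w)).card)) := by
      simp only [card_filter, Fintype.sum_sum_type, SS, Sum.elim_inl, Sum.elim_inr]
      push_cast
      rfl
    rw [h1]
    have h2 := hT.mul v
    have h3 := hS.mul v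
    have h6 := hmul6 v
    have h4 : ((univ.filter (fun q => v ∈ S4 q)).card : ℝ) ≤ w := by
      refine le_trans ?_ (hR.mul v)
      have : univ.filter (fun q => v ∈ S4 q) ⊆ univ.filter (fun q => ∃ b, (b, v) ∈ Q q) := by
        intro q hq
        rw [mem_filter] at hq ⊢
        obtain ⟨y, hy, hyv⟩ := mem_image.1 hq.2
        exact ⟨mem_univ _, y.1, by rw [← hyv]; exact hy⟩
      exact_mod_cast card_le_card this
    have h5 : ((univ.filter (fun w => v ∈ nb G w)).card : ℝ) ≤ 2 * d := by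
      have : univ.filter (fun w => v ∈ nb G w) = nb G v := by
        ext w
        rw [mem_filter, mem_nb, mem_nb]
        exact ⟨fun h => h.2.symm, fun h => ⟨mem_univ _, h.symm⟩⟩
      rw [this]
      exact_mod_cast hnb v
    linarith
  have hs0 : 0 ≤ 2 * (d : ℝ) * ((w * (1 + (d : ℝ) ^ 5) + d * X ^ K + 2 * d) * (1 + 2 * d)) := by
    positivity
  have hq0 : 0 ≤ (1 + 2 * (d : ℝ)) * (4 * w + w * (1 + (d : ℝ) ^ 5) + 2 * d) := by positivity
  obtain ⟨ω, hω⟩ := hSYM (Fin P × V) M ((τ ⊕ (τ ⊕ τ)) ⊕ (J ⊕ (R ⊕ V))) (fun k => Sc P G (SS k))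
    EE p (2 * d * ((w * (1 + (d : ℝ) ^ 5) + d * X ^ K + 2 * d) * (1 + 2 * d)))
    ((1 + 2 * d) * (4 * w + w * (1 + (d : ℝ) ^ 5) + 2 * d)) hM0 hs0 hq0
    hdep (by
      intro k
      have h1 : ((Sc P G (SS k)).card : ℝ) ≤ (P : ℝ) * ((SS k).card * (1 + 2 * d)) := by
        exact_mod_cast card_Sc (P := P) G (SS k) hdeg
      refine h1.trans ?_
      apply mul_le_mul hP' _ (by positivity) (by positivity)
      exact mul_le_mul_of_nonneg_right (hcard k) (by positivity)) (by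
      intro y
      have h1 := mult_Sc (P := P) G SS hdeg hmult (by positivity) y
      refine card_inst _ _ (h1.trans (le_of_eq ?_))
      push_cast
      ring) hp0 (by
      rintro ((j | (j | j)) | (j | (q | v)))
      · exact pr_inst _ _ (p6 j)
      · exact pr_inst _ _ (p1 j)
      · exact pr_inst _ _ (p2 j)
      · exact pr_inst _ _ (p3 j)
      · exact pr_inst _ _ (p4 q)
      · exact pr_inst _ _ (p5 v))
    (num_final2 C hX6 rfl rfl hde hd0.le hXKd (by positivity))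
  refine ⟨loc G U T ω, off U T ω, bad G U T (x ^ A) t Z k ω, ?_, ?_⟩
  swap
  · refine ⟨fun b => bad_sub G U T (x ^ A) t Z k ω b, fun j => ?_, fun y b hb => ?_⟩
    · exact (not_le.1 (hω (Sum.inl (Sum.inl j)))).le
    · have hky : 0 ≤ k y := le_trans (by positivity) (hk2 y)
      by_cases hne : ((loc G U T ω b \ bad G U T (x ^ A) t Z k ω b) ∩ Z y) = ∅
      · rw [hne, card_empty, Nat.cast_zero]
        exact hky
      · obtain ⟨v, hv⟩ := nonempty_iff_ne_empty.2 hne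
        have hin : ∀ u ∈ loc G U T ω b \ bad G U T (x ^ A) t Z k ω b,
            u ∈ ear U (x ^ A) t ω b ∧ ∀ y, u ∈ Z y →
              ((ear U (x ^ A) t ω b ∩ Z y).card : ℝ) ≤ k y := by
          intro u hu
          rw [mem_sdiff] at hu
          exact not_bad G U T (x ^ A) t Z k ω b hu.1 hu.2
        rw [mem_inter] at hv
        refine le_trans ?_ ((hin v hv.1).2 y hv.2)
        exact_mod_cast card_le_card fun u hu => by
          rw [mem_inter] at hu ⊢
          exact ⟨(hin u hu.1).1, hu.2⟩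
  constructor
  · exact fun b => loc_sub G U T ω b
  · exact fun b => filter_subset _ _
  · exact fun b => loc_ind G U T ω b
  · intro j
    have h1 := hω (Sum.inl (Sum.inr (Sum.inl j)))
    exact (not_le.1 h1).le
  · intro j
    have h1 := (not_le.1 (hω (Sum.inl (Sum.inr (Sum.inr j))))).le
    rw [hND] at h1
    exact h1
  · intro j
    have h1 := (not_le.1 (hω (Sum.inr (Sum.inl j)))).le
    refine h1.trans ?_
    have h2 : Real.sqrt (2100 * e' j / D) ≤ Real.sqrt (2100 * (e j / d) / D) := by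
      apply Real.sqrt_le_sqrt
      refine div_le_div_of_nonneg_right ?_ hD0.le
      exact mul_le_mul_of_nonneg_left (min_le_left _ _) (by norm_num)
    have h3 := mul_le_mul_of_nonneg_left h2 hb0.le
    linarith
  · intro q
    have h1 := (not_le.1 (hω (Sum.inr (Sum.inr (Sum.inl q))))).le
    refine le_trans (le_of_eq ?_) h1
    simp only [fq]
    rw [← sum_filter, sum_const, nsmul_eq_mul, mul_one]
    congr 2
    ext y
    simp only [mem_filter, mem_univ, true_and]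
    tauto
  · intro v hv
    have h1 := hω (Sum.inr (Sum.inr (Sum.inr v)))
    by_contra hneg
    exact h1 ⟨hv, not_le.1 hneg⟩

end Pool.Agent.Work.MP_db9399_owc.helper72
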